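import Mathlib

set_option autoImplicit false

/-! # Shellability of the removal poset of a monotone family with a natural order -/

namespace Pool.Agent.H64.KO

/-- `F` is a maximal chain of the set `P` ordered by `le`. -/
def IsMaxChain {W : Type} (P : Set W) (le : W → W → Prop) (F : Finset W) : Prop :=
  (∀ x ∈ F, x ∈ P) ∧ (∀ x ∈ F, ∀ y ∈ F, le x y ∨ le y x) ∧
    ∀ z ∈ P, (∀ x ∈ F, le x z ∨ le z x) → z ∈ F

/-- The order complex of `P` ordered by `le` is shellable. -/
def Shellable {W : Type} (P : Set W) (le : W → W → Prop) : Prop :=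
  ∃ L : List (Finset W), L.Nodup ∧ (∀ F, F ∈ L ↔ IsMaxChain P le F) ∧
    ∀ (L₁ : List (Finset W)) (F : Finset W) (L₂ : List (Finset W)), L = L₁ ++ F :: L₂ →
      ∀ G ∈ L₁, ∃ H ∈ L₁, ∃ v ∈ F, v ∉ G ∧ v ∉ H ∧ ∀ x ∈ F, x ≠ v → x ∈ H

section comb

variable {B : Type} [LinearOrder B] (q : Finset B → B → Prop)

def RS (J J' : Finset B) : Prop := ∃ j ∈ J, q J j ∧ J' = J.erase j

def R (J J' : Finset B) : Prop := Relation.ReflTransGen (RS q) J J'

variable {q}

theorem R_sub {J J' : Finset B} (h : R q J J') : J' ⊆ J := by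
  induction h with
  | refl => exact Finset.Subset.refl _
  | tail _ h2 ih =>
    obtain ⟨j, _, _, rfl⟩ := h2
    exact (Finset.erase_subset _ _).trans ih

theorem R_trans {J J' J'' : Finset B} (h : R q J J') (h' : R q J' J'') : R q J J'' :=
  Relation.ReflTransGen.trans h h'

theorem R_eq {J J' : Finset B} (h : R q J J') (h2 : J.card ≤ J'.card) : J' = J :=
  Finset.eq_of_subset_of_card_le (R_sub h) h2

/-- Valid removal words. -/
def Val (q : Finset B → B → Prop) : List B → Prop
  | [] => True
  | a :: t => a ∉ t ∧ q (a :: t).toFinset a ∧ Val q t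

theorem Val_nodup {σ : List B} (h : Val q σ) : σ.Nodup := by
  induction σ with
  | nil => exact List.nodup_nil
  | cons a t ih => exact List.nodup_cons.2 ⟨h.1, ih h.2.2⟩

theorem Val_suffix {s t : List B} (h : Val q (s ++ t)) : Val q t := by
  induction s with
  | nil => exact h
  | cons a s ih => exact ih h.2.2

theorem erase_cons {a : B} {t : List B} (h : a ∉ t) : (a :: t).toFinset.erase a = t.toFinset := by
  rw [List.toFinset_cons, Finset.erase_insert]
  rwa [List.mem_toFinset]

theorem Val_R {s t : List B} (h : Val q (s ++ t)) : R q (s ++ t).toFinset t.toFinset := by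
  induction s with
  | nil => exact Relation.ReflTransGen.refl
  | cons a s ih =>
    refine Relation.ReflTransGen.head ⟨a, ?_, h.2.1, ?_⟩ (ih h.2.2)
    · simp
    · have h1 : a ∉ s ++ t := h.1
      exact (erase_cons h1).symm

theorem swap_toFinset (u : List B) (a b : B) (v : List B) :
    (u ++ b :: a :: v).toFinset = (u ++ a :: b :: v).toFinset := by
  ext x
  simp only [List.mem_toFinset, List.mem_append, List.mem_cons]
  tauto

theorem Val_swap (q1 : ∀ (J' J : Finset B) (j : B), J' ⊆ J → j ∈ J' → q J j → q J' j)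
    (q2 : ∀ (J : Finset B) (a b : B), b < a → a ∈ J → b ∈ J → q (J.erase a) b → q J b)
    {a b : B} (hab : b < a) {u v : List B} (h : Val q (u ++ a :: b :: v)) :
    Val q (u ++ b :: a :: v) := by
  induction u with
  | nil =>
    obtain ⟨h1, h2, h3, h4, h5⟩ := h
    have hne : b ≠ a := hab.ne
    have hav : a ∉ v := fun h => h1 (List.mem_cons_of_mem _ h)
    have e : (b :: a :: v).toFinset = (a :: b :: v).toFinset := swap_toFinset [] a b v
    refine ⟨?_, ?_, hav, ?_, h5⟩
    · rw [List.mem_cons, not_or]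
      exact ⟨hne, h3⟩
    · rw [e]
      refine q2 _ a b hab (by simp) (by simp) ?_
      rw [erase_cons h1]
      exact h4
    · refine q1 _ (a :: b :: v).toFinset a ?_ (by simp) h2
      intro x
      simp only [List.mem_toFinset, List.mem_cons]
      tauto
  | cons c u ih =>
    obtain ⟨h1, h2, h3⟩ := h
    have e : (c :: (u ++ b :: a :: v)).toFinset = (c :: (u ++ a :: b :: v)).toFinset :=
      swap_toFinset (c :: u) a b v
    have h1' : c ∉ u ++ a :: b :: v := h1
    have h2' : q (c :: (u ++ a :: b :: v)).toFinset c := h2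
    have g1 : c ∉ u ++ b :: a :: v := by
      intro h4
      apply h1'
      simp only [List.mem_append, List.mem_cons] at h4 ⊢
      tauto
    have g2 : q (c :: (u ++ b :: a :: v)).toFinset c := by
      rw [e]
      exact h2'
    exact ⟨g1, g2, ih h3⟩

theorem extend (n : ℕ) : ∀ (J : Finset B), J.card = n → R q J ∅ → ∀ F : Finset (Finset B),
    (∀ X ∈ F, R q J X ∧ R q X ∅) → (∀ X ∈ F, ∀ Y ∈ F, R q X Y ∨ R q Y X) →
    ∃ σ : List B, Val q σ ∧ σ.toFinset = J ∧ ∀ X ∈ F, ∃ s t, σ = s ++ t ∧ X = t.toFinset := by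
  induction n with
  | zero =>
    intro J hJ _ F hF _
    have hJ0 : J = ∅ := Finset.card_eq_zero.1 hJ
    subst hJ0
    refine ⟨[], trivial, rfl, ?_⟩
    intro X hX
    refine ⟨[], [], rfl, ?_⟩
    exact Finset.subset_empty.1 (R_sub (hF X hX).1)
  | succ n ih =>
    intro J hJ hJ0 F hF hch
    have hne : J ≠ ∅ := by
      rintro rfl
      simp at hJ
    set F' : Finset (Finset B) := (insert ∅ F).filter (· ≠ J) with hF'
    have hmem : ∀ X ∈ F', R q J X ∧ R q X ∅ := by
      intro X hX
      rw [hF', Finset.mem_filter, Finset.mem_insert] at hX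
      rcases hX.1 with rfl | h
      · exact ⟨hJ0, Relation.ReflTransGen.refl⟩
      · exact hF X h
    have hch' : ∀ X ∈ F', ∀ Y ∈ F', R q X Y ∨ R q Y X := by
      intro X hX Y hY
      have hX2 := hX
      have hY2 := hY
      rw [hF', Finset.mem_filter, Finset.mem_insert] at hX hY
      rcases hX.1 with rfl | h
      · exact Or.inr (hmem Y hY2).2
      rcases hY.1 with rfl | h'
      · exact Or.inl (hmem X hX2).2
      · exact hch X h Y h'
    have hnonempty : F'.Nonempty := ⟨∅, by
      rw [hF', Finset.mem_filter]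
      exact ⟨Finset.mem_insert_self _ _, fun h => hne h.symm⟩⟩
    obtain ⟨X, hX, hmax⟩ := Finset.exists_max_image F' Finset.card hnonempty
    have hXJ : X ≠ J := (Finset.mem_filter.1 hX).2
    have hXall : ∀ Y ∈ F', R q X Y := by
      intro Y hY
      rcases hch' X hX Y hY with h | h
      · exact h
      · rw [R_eq h (hmax Y hY)]
        exact Relation.ReflTransGen.refl
    rcases Relation.ReflTransGen.cases_head (hmem X hX).1 with h | ⟨c, ⟨j, hj, hqj, hc⟩, hcX⟩
    · exact absurd h.symm hXJ
    have hcc : c.card = n := by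
      rw [hc, Finset.card_erase_of_mem hj, hJ]
      rfl
    obtain ⟨σ, hσ, hσc, hσF⟩ := ih c hcc (R_trans hcX (hmem X hX).2) F'
      (fun Y hY => ⟨R_trans hcX (hXall Y hY), (hmem Y hY).2⟩) hch'
    have hjσ : j ∉ σ := by
      intro h
      have h2 : j ∈ σ.toFinset := List.mem_toFinset.2 h
      rw [hσc, hc] at h2
      exact Finset.notMem_erase j J h2
    have hJσ : (j :: σ).toFinset = J := by
      rw [List.toFinset_cons, hσc, hc, Finset.insert_erase hj]
    refine ⟨j :: σ, ⟨hjσ, ?_, hσ⟩, hJσ, ?_⟩
    · rw [hJσ]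
      exact hqj
    · intro Y hY
      by_cases hYJ : Y = J
      · exact ⟨[], j :: σ, rfl, by rw [hJσ, hYJ]⟩
      · obtain ⟨s, t, h1, h2⟩ := hσF Y (Finset.mem_filter.2 ⟨Finset.mem_insert_of_mem hY, hYJ⟩)
        exact ⟨j :: s, t, by rw [h1]; rfl, h2⟩

theorem desc {x : B} {l : List B} {y : B} (hy : y ∈ l) (hyx : y < x) :
    ∃ u a b v, x :: l = u ++ a :: b :: v ∧ b < a ∧ y ∉ u ∧ y ≠ a := by
  induction l generalizing x with
  | nil => exact absurd hy List.not_mem_nil
  | cons z l ih =>
    by_cases hz : z < x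
    · exact ⟨[], x, z, l, rfl, hz, List.not_mem_nil, hyx.ne⟩
    · have hyz : y ≠ z := by
        rintro rfl
        exact hz hyx
      have hyl : y ∈ l := by
        rcases List.mem_cons.1 hy with h | h
        · exact absurd h hyz
        · exact h
      obtain ⟨u, a, b, v, h1, h2, h3, h4⟩ := ih hyl (lt_of_lt_of_le hyx (not_lt.1 hz))
      refine ⟨x :: u, a, b, v, by rw [h1]; rfl, h2, ?_, h4⟩
      rw [List.mem_cons, not_or]
      exact ⟨hyx.ne, h3⟩

theorem first_diff : ∀ (g f : List B), g.length = f.length → g < f →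
    ∃ p x y f' g', f = p ++ x :: f' ∧ g = p ++ y :: g' ∧ y < x := by
  intro g
  induction g with
  | nil =>
    intro f h h2
    have : f = [] := List.length_eq_zero_iff.1 h.symm
    subst this
    exact absurd h2 (lt_irrefl _)
  | cons y g ih =>
    intro f h h2
    cases f with
    | nil => simp at h
    | cons x f =>
      rcases List.cons_lt_cons_iff.1 h2 with h3 | ⟨rfl, h3⟩
      · exact ⟨[], x, y, f, g, rfl, rfl, h3⟩
      · obtain ⟨p, x', y', f', g', e1, e2, e3⟩ := ih f (by simpa using h) h3
        exact ⟨y :: p, x', y', f', g', by rw [e1]; rfl, by rw [e2]; rfl, e3⟩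

theorem swap_lt {a b : B} (hab : b < a) (u v : List B) :
    u ++ b :: a :: v < u ++ a :: b :: v := by
  induction u with
  | nil => exact List.cons_lt_cons_iff.2 (Or.inl hab)
  | cons c u ih => exact List.cons_lt_cons_iff.2 (Or.inr ⟨rfl, ih⟩)

section W

variable {W : Type} [DecidableEq W] (w : Finset B → W)

/-- The chain of a word. -/
def fc : List B → Finset W
  | [] => {w ∅}
  | a :: t => insert (w (a :: t).toFinset) (fc t)

theorem mem_fc {σ : List B} {x : W} :
    x ∈ fc w σ ↔ ∃ s t, σ = s ++ t ∧ x = w t.toFinset := by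
  induction σ with
  | nil =>
    constructor
    · intro h
      exact ⟨[], [], rfl, Finset.mem_singleton.1 h⟩
    · rintro ⟨s, t, h, rfl⟩
      have h2 : t = [] := (List.append_eq_nil_iff.1 h.symm).2
      rw [h2]
      exact Finset.mem_singleton_self _
  | cons a σ ih =>
    rw [fc, Finset.mem_insert, ih]
    constructor
    · rintro (h | ⟨s, t, h1, h2⟩)
      · exact ⟨[], a :: σ, rfl, h⟩
      · exact ⟨a :: s, t, by rw [h1]; rfl, h2⟩
    · rintro ⟨s, t, h1, h2⟩
      cases s with
      | nil =>
        left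
        rw [h2, ← show a :: σ = t from h1]
      | cons c s =>
        right
        rw [List.cons_append, List.cons.injEq] at h1
        exact ⟨s, t, h1.2, h2⟩

end W

end comb

end Pool.Agent.H64.KO
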