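import Pool.Agent.Helper741.Exchange

set_option autoImplicit false
set_option linter.unusedSectionVars false

namespace Pool.Agent.H64.KO

open CoxeterSystem Pool.Agent.Helper741

variable {B : Type} [Fintype B] [DecidableEq B] {M : CoxeterMatrix B}
variable {W : Type} [Group W] (cs : CoxeterSystem M W)

theorem ee_ne {i b : B} (h : b ≠ i) : (ee i : B → ℝ) b = 0 := by
  simp [ee, h]

theorem ee_same (i : B) : (ee i : B → ℝ) i = 1 := by
  simp [ee]

theorem sg_coord {i b : B} (h : b ≠ i) (v : B → ℝ) : (sg M i v) b = v b := by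
  rw [sg_apply, Pi.sub_apply, Pi.smul_apply, ee_ne h, smul_zero, sub_zero]

theorem geo_coord {l : List B} {b : B} (h : b ∉ l) (v : B → ℝ) :
    (geo cs (cs.wordProd l) v) b = v b := by
  induction l with
  | nil => simp
  | cons i l ih =>
    rw [List.mem_cons, not_or] at h
    rw [cs.wordProd_cons, map_mul, Module.End.mul_apply, geo_simple, sg_coord h.1, ih h.2]

theorem not_desc {x : W} {b : B} (h : 0 < (geo cs x (ee b)) b) :
    cs.length (x * cs.simple b) = cs.length x + 1 := by
  rcases cs.length_mul_simple x b with h1 | h1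
  · exact h1
  · have h2 : cs.length (x * cs.simple b) < cs.length x := by omega
    have h3 := geo_nonpos cs x b h2 b
    exact absurd h3 (not_le.2 h)

theorem len_nodup {l : List B} (h : l.Nodup) : cs.length (cs.wordProd l) = l.length := by
  induction l using List.reverseRecOn with
  | nil => simp
  | append_singleton l b ih =>
    have h1 := List.nodup_append.1 h
    have hb : b ∉ l := fun hb => List.disjoint_of_nodup_append h hb (by simp)
    rw [cs.wordProd_append, cs.wordProd_singleton, not_desc cs, ih h1.1, List.length_append]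
    · rfl
    · rw [geo_coord cs hb, ee_same]
      exact one_pos

theorem s_ne {l₁ l₂ : List B} {b : B} (h1 : b ∉ l₁) (h2 : b ∉ l₂) :
    cs.simple b * cs.wordProd l₁ ≠ cs.wordProd l₂ := by
  intro h
  have h3 := congrArg (fun x => (geo cs x (geo cs (cs.wordProd l₁)⁻¹ (ee b))) b) h
  simp only [map_mul, Module.End.mul_apply, geo_apply_inv, geo_simple, sg_ee_self, geo_coord cs h2,
    Pi.neg_apply, ee_same] at h3
  have h4 := geo_coord cs h1 (geo cs (cs.wordProd l₁)⁻¹ (ee b))
  rw [geo_apply_inv, ee_same] at h4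
  rw [← h4] at h3
  norm_num at h3

theorem filter_inj (I J : Finset B) : ∀ l : List B, l.Nodup →
    cs.wordProd (l.filter (· ∈ I)) = cs.wordProd (l.filter (· ∈ J)) →
    ∀ b ∈ l, (b ∈ I ↔ b ∈ J) := by
  intro l
  induction l with
  | nil => intro _ _ b hb; exact absurd hb List.not_mem_nil
  | cons a l ih =>
    intro hn h b hb
    have ha := (List.nodup_cons.1 hn)
    have hI : a ∉ l.filter (· ∈ I) := fun h => ha.1 (List.mem_of_mem_filter h)
    have hJ : a ∉ l.filter (· ∈ J) := fun h => ha.1 (List.mem_of_mem_filter h)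
    by_cases h1 : a ∈ I <;> by_cases h2 : a ∈ J
    · rw [List.filter_cons_of_pos (by simpa using h1), List.filter_cons_of_pos (by simpa using h2),
        cs.wordProd_cons, cs.wordProd_cons] at h
      rcases List.mem_cons.1 hb with rfl | hb
      · exact ⟨fun _ => h2, fun _ => h1⟩
      · exact ih ha.2 (mul_left_cancel h) b hb
    · rw [List.filter_cons_of_pos (by simpa using h1), List.filter_cons_of_neg (by simpa using h2),
        cs.wordProd_cons] at h
      exact absurd h (s_ne cs hI hJ)
    · rw [List.filter_cons_of_neg (by simpa using h1), List.filter_cons_of_pos (by simpa using h2),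
        cs.wordProd_cons] at h
      exact absurd h.symm (s_ne cs hJ hI)
    · rw [List.filter_cons_of_neg (by simpa using h1),
        List.filter_cons_of_neg (by simpa using h2)] at h
      rcases List.mem_cons.1 hb with rfl | hb
      · exact ⟨fun h => absurd h h1, fun h => absurd h h2⟩
      · exact ih ha.2 h b hb

/-! ### Strong exchange -/

theorem invc_inv (u : W) (x : W) : (invc cs u).v (u * x * u⁻¹) = (invc cs u⁻¹).v x := by
  have h1 : (invc cs (u * u⁻¹)).v (u * x * u⁻¹) = 0 := by
    rw [mul_inv_cancel, map_one (invc cs)]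
    rfl
  rw [map_mul (invc cs), TExt.mul_v, Finsupp.add_apply, invc_w, TExt.act_apply] at h1
  have e : u⁻¹ * (u * x * u⁻¹) * u = x := by group
  rw [e] at h1
  have h2 := CharTwo.add_self_eq_zero ((invc cs u⁻¹).v x)
  have h3 : (invc cs u).v (u * x * u⁻¹) = -(invc cs u⁻¹).v x := eq_neg_of_add_eq_zero_left h1
  rw [h3, CharTwo.neg_eq]

theorem invc_refl {t : W} (ht : cs.IsReflection t) : (invc cs t).v t = 1 := by
  obtain ⟨u, i, rfl⟩ := ht
  have key : invc cs (u * cs.simple i * u⁻¹) = invc cs u * (invc cs (cs.simple i) * invc cs u⁻¹) := by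
    rw [mul_assoc, map_mul (invc cs), map_mul (invc cs)]
  have e2 : u⁻¹ * (u * cs.simple i * u⁻¹) * u = cs.simple i := by group
  have e3 : (cs.simple i)⁻¹ * cs.simple i * cs.simple i = cs.simple i := by group
  rw [key, TExt.mul_v, Finsupp.add_apply, invc_w, TExt.act_apply, e2, TExt.mul_v,
    Finsupp.add_apply, invc_w, TExt.act_apply, e3, invc_inv, invc_simple, TExt.el_v,
    Finsupp.single_eq_same]
  have h2 := CharTwo.add_self_eq_zero ((invc cs u⁻¹).v (cs.simple i))
  rw [← add_assoc, add_right_comm, h2, zero_add]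

theorem strong {t : W} (ht : cs.IsReflection t) (l : List B)
    (h : cs.length (t * cs.wordProd l) < cs.length (cs.wordProd l)) : t ∈ cs.leftInvSeq l := by
  apply mem_leftInvSeq_of_invc
  intro h0
  obtain ⟨ω', hred, hω'⟩ := cs.exists_isReduced (t * cs.wordProd l)
  have h1 : (invc cs (cs.wordProd ω')).v t ≠ 0 := by
    rw [← hω', map_mul (invc cs), TExt.mul_v, Finsupp.add_apply, invc_w, TExt.act_apply, invc_refl cs ht]
    have : t⁻¹ * t * t = t := by group
    rw [this, h0, add_zero]
    exact one_ne_zero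
  have h2 := mem_leftInvSeq_of_invc cs ω' _ h1
  have h3 := (cs.isLeftInversion_of_mem_leftInvSeq hred h2).2
  rw [← hω', ← mul_assoc, ht.mul_self, one_mul] at h3
  omega

theorem mem_lis {t : W} : ∀ {l : List B}, t ∈ cs.leftInvSeq l →
    ∃ s j r, l = s ++ j :: r ∧ t = cs.wordProd s * cs.simple j * (cs.wordProd s)⁻¹ := by
  intro l
  induction l generalizing t with
  | nil => intro h; simp at h
  | cons i l ih =>
    intro h
    rw [leftInvSeq, List.mem_cons] at h
    rcases h with h | h
    · exact ⟨[], i, l, rfl, by rw [h]; simp⟩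
    · obtain ⟨t', ht', rfl⟩ := List.mem_map.1 h
      obtain ⟨s, j, r, e1, e2⟩ := ih ht'
      refine ⟨i :: s, j, r, by rw [e1]; rfl, ?_⟩
      rw [e2, cs.wordProd_cons, MulAut.conj_apply]
      group

/-! ### Lengths of the reflections -/

theorem cc_nonneg {i j : B} (h : i ≠ j) : 0 ≤ cc M i j := by
  by_cases h0 : M i j = 0
  · rw [cc_of_zero M h0]
    exact zero_le_one
  · have h2 := two_le_of_ne (M := M) h h0
    unfold cc
    have h3 : (2 : ℝ) ≤ (M i j : ℝ) := by exact_mod_cast h2
    apply Real.cos_nonneg_of_neg_pi_div_two_le_of_le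
    · have : 0 ≤ Real.pi / (M i j : ℝ) := div_nonneg Real.pi_pos.le (by linarith)
      linarith [Real.pi_pos]
    · exact div_le_div_of_nonneg_left Real.pi_pos.le (by norm_num) h3

/-- The root of a word. -/
noncomputable def bt (j : B) (A : List B) : B → ℝ := geo cs (cs.wordProd A) (ee j)

theorem bt_cons (j a : B) (A : List B) :
    bt cs j (a :: A) = bt cs j A - coroot M a (bt cs j A) • ee a := by
  unfold bt
  rw [cs.wordProd_cons, map_mul, Module.End.mul_apply, geo_simple, sg_apply]

theorem bt_zero {j a : B} {A : List B} (ha : a ∉ A) (haj : a ≠ j) : bt cs j A a = 0 := by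
  unfold bt
  rw [geo_coord cs ha, ee_ne haj]

theorem coroot_mono {a : B} {v v' : B → ℝ} (h0 : v a = 0) (h0' : v' a = 0)
    (h : ∀ i, v i ≤ v' i) : coroot M a v' ≤ coroot M a v := by
  rw [Pool.Agent.Helper741.coroot_apply, Pool.Agent.Helper741.coroot_apply]
  apply Finset.sum_le_sum
  intro i _
  by_cases hi : i = a
  · rw [hi, h0, h0']
  · have h1 := cc_nonneg (M := M) (Ne.symm hi)
    nlinarith [h i]

theorem bt_mono (j : B) : ∀ {A' A : List B}, A'.Sublist A → A.Nodup → j ∉ A →
    ∀ i, 0 ≤ bt cs j A' i ∧ bt cs j A' i ≤ bt cs j A i := by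
  intro A' A h
  induction h with
  | slnil =>
    intro _ _ i
    refine ⟨?_, le_refl _⟩
    unfold bt
    rw [cs.wordProd_nil, map_one, Module.End.one_apply]
    exact ee_nonneg j i
  | @cons l₁ l₂ a h ih =>
    intro hn hj i
    have hn2 := List.nodup_cons.1 hn
    rw [List.mem_cons, not_or] at hj
    have h1 := ih hn2.2 hj.2
    refine ⟨(h1 i).1, (h1 i).2.trans ?_⟩
    rw [bt_cons]
    have h2 : coroot M a (bt cs j l₂) ≤ 0 := by
      have h3 := coroot_mono (M := M) (a := a) (v := 0) (v' := bt cs j l₂) rfl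
        (bt_zero cs hn2.1 (Ne.symm hj.1)) (fun i => ((h1 i).1.trans (h1 i).2))
      rwa [map_zero] at h3
    rw [Pi.sub_apply, Pi.smul_apply, smul_eq_mul]
    have h4 := ee_nonneg (B := B) a i
    simp only [Pi.zero_apply] at h4
    nlinarith
  | @cons_cons l₁ l₂ a h ih =>
    intro hn hj i
    have hn2 := List.nodup_cons.1 hn
    rw [List.mem_cons, not_or] at hj
    have h1 := ih hn2.2 hj.2
    have ha1 : a ∉ l₁ := fun hh => hn2.1 (h.subset hh)
    have z1 := bt_zero cs ha1 (Ne.symm hj.1)
    have z2 := bt_zero cs hn2.1 (Ne.symm hj.1)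
    have h2 := coroot_mono (M := M) z1 z2 (fun i => (h1 i).2)
    have h3 := coroot_mono (M := M) (a := a) (v := 0) (v' := bt cs j l₁) rfl z1
      (fun i => (h1 i).1)
    rw [map_zero] at h3
    rw [bt_cons, bt_cons, Pi.sub_apply, Pi.smul_apply, smul_eq_mul, Pi.sub_apply, Pi.smul_apply,
      smul_eq_mul]
    have h4 := ee_nonneg (B := B) a i
    simp only [Pi.zero_apply] at h4
    constructor
    · nlinarith [(h1 i).1]
    · nlinarith [(h1 i).2]

/-- The reflection of a word. -/
def tt (j : B) (A : List B) : W := cs.wordProd A * cs.simple j * (cs.wordProd A)⁻¹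

theorem tt_cons (j a : B) (A : List B) :
    tt cs j (a :: A) = cs.simple a * (tt cs j A * cs.simple a) := by
  unfold tt
  rw [cs.wordProd_cons, mul_inv_rev, cs.inv_simple]
  simp only [mul_assoc]

theorem tt_refl (j : B) (A : List B) : cs.IsReflection (tt cs j A) := ⟨_, _, rfl⟩

theorem tt_inv (j : B) (A : List B) : (tt cs j A)⁻¹ = tt cs j A := (tt_refl cs j A).inv

theorem geo_tt (j : B) (A : List B) (v : B → ℝ) :
    geo cs (tt cs j A) v = v - bil M (bt cs j A) v • bt cs j A := geo_conj_simple cs _ _ _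

theorem tt_commute {j a : B} {A : List B} (h : coroot M a (bt cs j A) = 0) :
    tt cs j (a :: A) = tt cs j A := by
  apply conj_eq_of_geo_eq cs
  have h1 := bt_cons cs j a A
  rw [h, zero_smul, sub_zero] at h1
  exact h1

theorem len_right {j a : B} {A : List B} (ha : a ∉ A) (haj : a ≠ j) :
    cs.length (tt cs j A * cs.simple a) = cs.length (tt cs j A) + 1 := by
  apply not_desc
  rw [geo_tt, Pi.sub_apply, Pi.smul_apply, bt_zero cs ha haj, smul_zero, sub_zero, ee_same]
  exact one_pos

theorem len_both {j a : B} {A : List B} (hn : A.Nodup) (hj : j ∉ A) (ha : a ∉ A) (haj : a ≠ j)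
    (h : coroot M a (bt cs j A) ≠ 0) :
    cs.length (tt cs j (a :: A)) = cs.length (tt cs j A) + 2 := by
  have hneg : coroot M a (bt cs j A) < 0 := by
    refine lt_of_le_of_ne ?_ h
    have h3 := coroot_mono (M := M) (a := a) (v := 0) (v' := bt cs j A) rfl
      (bt_zero cs ha haj) (fun i => (bt_mono cs j (List.Sublist.refl A) hn hj i).1)
    rwa [map_zero] at h3
  have e1 : cs.length (tt cs j (a :: A)) =
      cs.length ((cs.simple a * tt cs j A) * cs.simple a) := by
    rw [tt_cons, mul_assoc]
  have e2 : cs.length (cs.simple a * tt cs j A) = cs.length (tt cs j A) + 1 := by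
    rw [← len_right cs ha haj, ← cs.length_inv (tt cs j A * cs.simple a), mul_inv_rev,
      cs.inv_simple, tt_inv]
  rw [e1]
  rcases cs.length_mul_simple (cs.simple a * tt cs j A) a with h1 | h1
  · rw [h1, e2]
  · have h2 : cs.length (cs.simple a * tt cs j A * cs.simple a) <
        cs.length (cs.simple a * tt cs j A) := by omega
    have h3 := geo_nonpos cs _ a h2 j
    rw [map_mul, Module.End.mul_apply, geo_simple, sg_coord (Ne.symm haj), geo_tt, bil_ee_right,
      Pi.sub_apply, Pi.smul_apply, ee_ne (Ne.symm haj), smul_eq_mul] at h3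
    have h4 : bt cs j A j = 1 := by
      unfold bt
      rw [geo_coord cs hj, ee_same]
    rw [h4] at h3
    simp only [Pi.zero_apply] at h3
    linarith

theorem tt_mono (j : B) : ∀ {A' A : List B}, A'.Sublist A → A.Nodup → j ∉ A →
    cs.length (tt cs j A') ≤ cs.length (tt cs j A) := by
  intro A' A h
  induction h with
  | slnil => intro _ _; exact le_refl _
  | @cons l₁ l₂ a h ih =>
    intro hn hj
    have hn2 := List.nodup_cons.1 hn
    rw [List.mem_cons, not_or] at hj
    refine (ih hn2.2 hj.2).trans ?_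
    rw [tt_cons]
    have h1 := len_right cs (j := j) hn2.1 (Ne.symm hj.1)
    rcases cs.length_simple_mul (tt cs j l₂ * cs.simple a) a with h2 | h2 <;> omega
  | @cons_cons l₁ l₂ a h ih =>
    intro hn hj
    have hn2 := List.nodup_cons.1 hn
    rw [List.mem_cons, not_or] at hj
    have ha1 : a ∉ l₁ := fun hh => hn2.1 (h.subset hh)
    have h1 := ih hn2.2 hj.2
    by_cases hc : coroot M a (bt cs j l₂) = 0
    · have hm := bt_mono cs j h hn2.2 hj.2
      have z1 := bt_zero cs ha1 (Ne.symm hj.1)
      have z2 := bt_zero cs hn2.1 (Ne.symm hj.1)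
      have h2 := coroot_mono (M := M) z1 z2 (fun i => (hm i).2)
      have h3 := coroot_mono (M := M) (a := a) (v := 0) (v' := bt cs j l₁) rfl z1
        (fun i => (hm i).1)
      rw [map_zero] at h3
      rw [hc] at h2
      rw [tt_commute cs hc, tt_commute cs (le_antisymm h3 h2)]
      exact h1
    · rw [len_both cs hn2.2 hj.2 hn2.1 (Ne.symm hj.1) hc]
      have h4 : cs.length (tt cs j (a :: l₁)) ≤ cs.length (tt cs j l₁) + 2 := by
        rw [tt_cons]
        rcases cs.length_simple_mul (tt cs j l₁ * cs.simple a) a with h5 | h5 <;>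
        rcases cs.length_mul_simple (tt cs j l₁) a with h6 | h6 <;> omega
      omega

end Pool.Agent.H64.KO
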