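import Pool.Agent.H64.KO.Comb

set_option autoImplicit false

namespace Pool.Agent.H64.KO

section

variable {B : Type} [Fintype B] [LinearOrder B] {q : Finset B → B → Prop}
variable {W : Type} {w : Finset B → W}

theorem fc_inj [DecidableEq W] (hw : Function.Injective w) : ∀ (σ τ : List B), σ.Nodup → τ.Nodup →
    σ.toFinset = τ.toFinset → (∀ x ∈ fc w σ, x ∈ fc w τ) → σ = τ := by
  intro σ
  induction σ with
  | nil =>
    intro τ _ _ h _
    rw [List.toFinset_nil] at h
    exact ((List.toFinset_eq_empty_iff τ).1 h.symm).symm
  | cons a t ih =>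
    intro τ h1 h2 h3 h4
    cases τ with
    | nil =>
      rw [List.toFinset_nil] at h3
      exact absurd ((List.toFinset_eq_empty_iff (a :: t)).1 h3) (List.cons_ne_nil _ _)
    | cons b t' =>
      have ha := (List.nodup_cons.1 h1)
      have hb := (List.nodup_cons.1 h2)
      have hlen : t.length = t'.length := by
        have e1 := List.toFinset_card_of_nodup h1
        have e2 := List.toFinset_card_of_nodup h2
        rw [h3, e2] at e1
        simpa using e1.symm
      have hx : w t.toFinset ∈ fc w (b :: t') := h4 _ ((mem_fc w).2 ⟨[a], t, rfl, rfl⟩)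
      obtain ⟨s, u, e1, e2⟩ := (mem_fc w).1 hx
      have e3 : t.toFinset = u.toFinset := hw e2
      have hu : u.Nodup := by
        rw [e1] at h2
        exact (List.nodup_append.1 h2).2.1
      have hul : u.length = t'.length := by
        rw [← List.toFinset_card_of_nodup hu, ← e3, List.toFinset_card_of_nodup ha.2, hlen]
      have hut : u = t' := by
        cases s with
        | nil =>
          have : b :: t' = u := e1
          rw [← this] at hul
          simp at hul
        | cons c s =>
          rw [List.cons_append, List.cons.injEq] at e1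
          have : s.length + u.length = t'.length := by rw [e1.2, List.length_append]
          have hs : s = [] := List.length_eq_zero_iff.1 (by omega)
          rw [e1.2, hs]
          rfl
      rw [hut] at e3
      have hab : a = b := by
        have h5 : a ∈ (b :: t').toFinset := by
          rw [← h3]
          simp
        rw [List.toFinset_cons, Finset.mem_insert] at h5
        rcases h5 with h5 | h5
        · exact h5
        · rw [← e3, List.mem_toFinset] at h5
          exact absurd h5 ha.1
      subst hab
      rw [ih t' ha.2 hb.2 e3 ?_]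
      intro x hx
      have h6 : x ∈ fc w (a :: t') := h4 x (Finset.mem_insert_of_mem hx)
      rw [fc, Finset.mem_insert] at h6
      rcases h6 with h6 | h6
      · obtain ⟨s, v, e5, e6⟩ := (mem_fc w).1 hx
        have e7 : v.toFinset = (a :: t').toFinset := hw (e6.symm.trans h6)
        have h8 : a ∈ v.toFinset := by rw [e7]; simp
        have h9 : a ∈ t := by
          rw [e5]
          exact List.mem_append_right _ (List.mem_toFinset.1 h8)
        exact absurd h9 ha.1
      · exact h6

theorem shell (hw : Function.Injective w) (P : Set W) (le : W → W → Prop)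
    (hP : ∀ x, x ∈ P ↔ ∃ J, x = w J ∧ R q Finset.univ J ∧ R q J ∅)
    (hle : ∀ J J', le (w J) (w J') ↔ R q J' J)
    (q1 : ∀ (J' J : Finset B) (j : B), J' ⊆ J → j ∈ J' → q J j → q J' j)
    (q2 : ∀ (J : Finset B) (a b : B), b < a → a ∈ J → b ∈ J → q (J.erase a) b → q J b)
    (h0 : R q Finset.univ ∅) : Shellable P le := by
  classical
  set words : Finset (List B) :=
    ((Finset.univ : Finset {l : List B // l.Nodup}).image Subtype.val).filter
      (fun σ => Val q σ ∧ σ.toFinset = Finset.univ) with hwords
  have hmw : ∀ σ, σ ∈ words ↔ Val q σ ∧ σ.toFinset = Finset.univ := by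
    intro σ
    rw [hwords, Finset.mem_filter, Finset.mem_image]
    constructor
    · exact fun h => h.2
    · intro h
      exact ⟨⟨⟨σ, Val_nodup h.1⟩, Finset.mem_univ _, rfl⟩, h⟩
  -- chains of words are maximal chains
  have hchain : ∀ σ ∈ words, (∀ x ∈ fc w σ, x ∈ P) ∧
      (∀ x ∈ fc w σ, ∀ y ∈ fc w σ, le x y ∨ le y x) := by
    intro σ hσ
    obtain ⟨h1, h2⟩ := (hmw σ).1 hσ
    constructor
    · intro x hx
      obtain ⟨s, t, rfl, rfl⟩ := (mem_fc w).1 hx
      refine (hP _).2 ⟨_, rfl, ?_, ?_⟩
      · rw [← h2]
        exact Val_R h1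
      · have := Val_R (s := t) (t := []) (q := q) (by rw [List.append_nil]; exact Val_suffix h1)
        rwa [List.append_nil, List.toFinset_nil] at this
    · intro x hx y hy
      obtain ⟨s, t, e1, rfl⟩ := (mem_fc w).1 hx
      obtain ⟨s', t', e2, rfl⟩ := (mem_fc w).1 hy
      rw [hle, hle]
      have e3 : s ++ t = s' ++ t' := e1.symm.trans e2
      rcases List.append_eq_append_iff.1 e3 with ⟨a, _, e5⟩ | ⟨a, _, e5⟩
      · right
        rw [e5]
        apply Val_R
        rw [← e5]
        rw [e1] at h1
        exact Val_suffix h1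
      · left
        rw [e5]
        apply Val_R
        rw [← e5]
        rw [e2] at h1
        exact Val_suffix h1
  have hmax : ∀ σ ∈ words, IsMaxChain P le (fc w σ) := by
    intro σ hσ
    refine ⟨(hchain σ hσ).1, (hchain σ hσ).2, ?_⟩
    intro z hz hcomp
    obtain ⟨h1, h2⟩ := (hmw σ).1 hσ
    obtain ⟨J, rfl, _, _⟩ := (hP z).1 hz
    have hnd := Val_nodup h1
    have hcard : J.card ≤ σ.length := by
      rw [← List.toFinset_card_of_nodup hnd, h2]
      exact Finset.card_le_univ J
    have hsplit : σ = σ.take (σ.length - J.card) ++ σ.drop (σ.length - J.card) :=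
      (List.take_append_drop _ _).symm
    have hdn : (σ.drop (σ.length - J.card)).Nodup := hnd.sublist (List.drop_sublist _ _)
    have hdc : (σ.drop (σ.length - J.card)).toFinset.card = J.card := by
      rw [List.toFinset_card_of_nodup hdn, List.length_drop]
      omega
    have hmem : w (σ.drop (σ.length - J.card)).toFinset ∈ fc w σ :=
      (mem_fc w).2 ⟨_, _, hsplit, rfl⟩
    have hJ : J = (σ.drop (σ.length - J.card)).toFinset := by
      rcases hcomp _ hmem with h | h
      · rw [hle] at h
        exact (R_eq h hdc.ge).symm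
      · rw [hle] at h
        exact R_eq h hdc.le
    rw [hJ]
    exact hmem
  -- every maximal chain comes from a word
  have hall : ∀ F, IsMaxChain P le F → ∃ σ ∈ words, fc w σ = F := by
    intro F hF
    obtain ⟨hF1, hF2, hF3⟩ := hF
    set FF : Finset (Finset B) := (Finset.univ : Finset (Finset B)).filter (fun J => w J ∈ F)
      with hFF
    have hFFm : ∀ J, J ∈ FF ↔ w J ∈ F := by
      intro J
      rw [hFF, Finset.mem_filter]
      exact ⟨fun h => h.2, fun h => ⟨Finset.mem_univ _, h⟩⟩
    obtain ⟨σ, h1, h2, h3⟩ := extend (q := q) _ Finset.univ rfl h0 FF (by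
        intro X hX
        obtain ⟨J, hJ, hJ1, hJ2⟩ := (hP _).1 (hF1 _ ((hFFm X).1 hX))
        rw [hw hJ]
        exact ⟨hJ1, hJ2⟩) (by
        intro X hX Y hY
        rcases hF2 _ ((hFFm X).1 hX) _ ((hFFm Y).1 hY) with h | h
        · exact Or.inr ((hle _ _).1 h)
        · exact Or.inl ((hle _ _).1 h))
    have hσ : σ ∈ words := (hmw σ).2 ⟨h1, h2⟩
    have hsub : ∀ x ∈ F, x ∈ fc w σ := by
      intro x hx
      obtain ⟨J, rfl, _, _⟩ := (hP x).1 (hF1 x hx)
      obtain ⟨s, t, e1, e2⟩ := h3 J ((hFFm J).2 hx)
      exact (mem_fc w).2 ⟨s, t, e1, by rw [e2]⟩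
    refine ⟨σ, hσ, ?_⟩
    apply Finset.Subset.antisymm
    · intro x hx
      exact hF3 x ((hchain σ hσ).1 x hx) fun y hy => (hchain σ hσ).2 y (hsub y hy) x hx
    · exact hsub
  have hinj : ∀ σ ∈ words, ∀ τ ∈ words, fc w σ = fc w τ → σ = τ := by
    intro σ hσ τ hτ h
    have h1 := (hmw σ).1 hσ
    have h2 := (hmw τ).1 hτ
    exact fc_inj hw σ τ (Val_nodup h1.1) (Val_nodup h2.1) (h1.2.trans h2.2.symm)
      fun x hx => h ▸ hx
  have hsm : ∀ σ, σ ∈ words.sort (· ≤ ·) ↔ σ ∈ words := fun σ => Finset.mem_sort _
  have hlt : (words.sort (· ≤ ·)).Pairwise (· < ·) := (Finset.sortedLT_sort words).pairwise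
  refine ⟨(words.sort (· ≤ ·)).map (fc w), ?_, ?_, ?_⟩
  · refine List.Nodup.map_on ?_ (Finset.sort_nodup _ _)
    intro σ hσ τ hτ h
    exact hinj σ ((hsm σ).1 hσ) τ ((hsm τ).1 hτ) h
  · intro F
    rw [List.mem_map]
    constructor
    · rintro ⟨σ, hσ, rfl⟩
      exact hmax σ ((hsm σ).1 hσ)
    · intro hF
      obtain ⟨σ, hσ, h⟩ := hall F hF
      exact ⟨σ, (hsm σ).2 hσ, h⟩
  · intro L₁ F L₂ hL G hG
    obtain ⟨l₁, l₂', e1, e2, e3⟩ := List.map_eq_append_iff.1 hL
    obtain ⟨f, l₂, e4, e5, _⟩ := List.map_eq_cons_iff.1 e3
    rw [← e2] at hG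
    obtain ⟨g, hg, rfl⟩ := List.mem_map.1 hG
    rw [e4] at e1
    have hf : f ∈ words := (hsm f).1 (by rw [e1]; simp)
    have hgw : g ∈ words := (hsm g).1 (by rw [e1]; simp [hg])
    rw [e1] at hlt
    have hlt2 := List.pairwise_append.1 hlt
    have hgf : g < f := hlt2.2.2 g hg f (by simp)
    obtain ⟨hf1, hf2⟩ := (hmw f).1 hf
    obtain ⟨hg1, hg2⟩ := (hmw g).1 hgw
    have hfn := Val_nodup hf1
    have hgn := Val_nodup hg1
    have hlen : g.length = f.length := by
      rw [← List.toFinset_card_of_nodup hfn, ← List.toFinset_card_of_nodup hgn, hf2, hg2]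
    obtain ⟨p, x, y, f', g', ef, eg, hyx⟩ := first_diff g f hlen hgf
    have hyp : y ∉ p := by
      intro h
      rw [eg] at hgn
      exact (List.disjoint_of_nodup_append hgn) h (by simp)
    have hyf' : y ∈ f' := by
      have h1 : y ∈ f.toFinset := by rw [hf2]; exact Finset.mem_univ _
      rw [List.mem_toFinset, ef, List.mem_append, List.mem_cons] at h1
      rcases h1 with h1 | h1 | h1
      · exact absurd h1 hyp
      · exact absurd h1 hyx.ne
      · exact h1
    obtain ⟨u, a, b, v, e6, hba, hyu, hya⟩ := desc hyf' hyx
    have ef2 : f = (p ++ u) ++ a :: b :: v := by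
      rw [ef, e6, List.append_assoc]
    set h : List B := (p ++ u) ++ b :: a :: v with hh
    have hVh : Val q h := Val_swap q1 q2 hba (ef2 ▸ hf1)
    have hhw : h ∈ words := by
      refine (hmw h).2 ⟨hVh, ?_⟩
      rw [hh, swap_toFinset, ← ef2, hf2]
    have hhf : h < f := by
      rw [ef2]
      exact swap_lt hba _ _
    have hhl : h ∈ l₁ := by
      have h1 : h ∈ l₁ ++ f :: l₂ := by
        rw [← e1]
        exact (hsm h).2 hhw
      rcases List.mem_append.1 h1 with h2 | h2
      · exact h2
      · rcases List.mem_cons.1 h2 with h3 | h3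
        · rw [h3] at hhf
          exact absurd hhf (lt_irrefl _)
        · exact absurd hhf (lt_asymm ((List.pairwise_cons.1 hlt2.2.1).1 h h3))
    have hbv : (b :: v).Nodup := by
      rw [ef2] at hfn
      exact (List.nodup_cons.1 (List.nodup_append.1 hfn).2.1).2
    have hav : a ∉ b :: v := by
      rw [ef2] at hfn
      exact (List.nodup_cons.1 (List.nodup_append.1 hfn).2.1).1
    refine ⟨fc w h, by rw [← e2]; exact List.mem_map.2 ⟨h, hhl, rfl⟩, w (b :: v).toFinset, ?_, ?_,
      ?_, ?_⟩
    · rw [← e5]
      exact (mem_fc w).2 ⟨(p ++ u) ++ [a], b :: v, by rw [ef2]; simp, rfl⟩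
    · intro h1
      obtain ⟨s, t, es, et⟩ := (mem_fc w).1 h1
      have et2 : (b :: v).toFinset = t.toFinset := hw et
      have htn : t.Nodup := by
        rw [es] at hgn
        exact (List.nodup_append.1 hgn).2.1
      have htl : t.length = (b :: v).length := by
        rw [← List.toFinset_card_of_nodup htn, ← et2, List.toFinset_card_of_nodup hbv]
      have hsl : s.length = (p ++ u).length + 1 := by
        have h2 : s.length + t.length = (p ++ u).length + (a :: b :: v).length := by
          rw [← List.length_append, ← es, hlen, ef2, List.length_append]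
        rw [htl] at h2
        simp only [List.length_cons] at h2 ⊢
        omega
      -- y is in t
      have hyt : y ∈ t := by
        have h3 : y ∈ (b :: v).toFinset := by
          rw [List.mem_toFinset]
          have h4 : y ∈ x :: f' := List.mem_cons_of_mem _ hyf'
          rw [e6, List.mem_append] at h4
          rcases h4 with h4 | h4
          · exact absurd h4 hyu
          · rcases List.mem_cons.1 h4 with h5 | h5
            · exact absurd h5 hya
            · exact h5
        rw [et2, List.mem_toFinset] at h3
        exact h3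
      -- y is in s
      have hys : y ∈ s := by
        have e7 : s ++ t = (p ++ [y]) ++ g' := by
          rw [← es, eg]
          simp
        have hple : (p ++ [y]).length ≤ s.length := by
          rw [hsl]
          simp
        have e8 : p ++ [y] <+: s := by
          apply List.prefix_of_prefix_length_le (l₃ := s ++ t) _ (List.prefix_append _ _) hple
          rw [e7]
          exact List.prefix_append _ _
        exact e8.subset (by simp)
      rw [es] at hgn
      exact (List.disjoint_of_nodup_append hgn) hys hyt
    · intro h1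
      obtain ⟨s, t, es, et⟩ := (mem_fc w).1 h1
      have et2 : (b :: v).toFinset = t.toFinset := hw et
      have hhn := Val_nodup hVh
      have htn : t.Nodup := by
        rw [es] at hhn
        exact (List.nodup_append.1 hhn).2.1
      have htl : t.length = (a :: v).length := by
        rw [← List.toFinset_card_of_nodup htn, ← et2, List.toFinset_card_of_nodup hbv]
        rfl
      have e7 : s ++ t = ((p ++ u) ++ [b]) ++ (a :: v) := by
        rw [← es, hh]
        simp
      have e8 := List.append_inj' e7 htl
      have h3 : a ∈ t.toFinset := by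
        rw [e8.2]
        simp
      rw [← et2, List.mem_toFinset] at h3
      exact hav h3
    · intro z hz hzv
      rw [← e5] at hz
      obtain ⟨s, t, es, et⟩ := (mem_fc w).1 hz
      rw [ef2] at es
      rcases List.append_eq_append_iff.1 es with ⟨c, ec1, ec2⟩ | ⟨c, ec1, ec2⟩
      · -- s = (p ++ u) ++ c, a :: b :: v = c ++ t
        cases c with
        | nil =>
          have : t = a :: b :: v := ec2.symm
          refine (mem_fc w).2 ⟨p ++ u, b :: a :: v, hh, ?_⟩
          rw [et, this]
          exact congrArg w (swap_toFinset [] b a v)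
        | cons c0 c =>
          rw [List.cons_append, List.cons.injEq] at ec2
          cases c with
          | nil =>
            have : t = b :: v := ec2.2.symm
            exact absurd (by rw [et, this]) hzv
          | cons c1 c =>
            rw [List.cons_append, List.cons.injEq] at ec2
            refine (mem_fc w).2 ⟨(p ++ u) ++ [b, a] ++ c, t, ?_, et⟩
            rw [hh, ec2.2.2]
            simp
      · -- p ++ u = s ++ c, t = c ++ a :: b :: v
        refine (mem_fc w).2 ⟨s, c ++ b :: a :: v, ?_, ?_⟩
        · rw [hh, ec1, List.append_assoc]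
        · rw [et, ec2]
          exact congrArg w (swap_toFinset c b a v)

end

end Pool.Agent.H64.KO
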